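import Pool.Agent.Helper62.BM.LStm

/-!
# Package `L_Van` (helper62, phase 3): the order argument
-/

set_option autoImplicit false

open Polynomial Matrix Finset

namespace Pool.Agent.Helper38.BL

open Pool.Agent.Helper62.BM

section

variable {k : Type} [Field k] {n : ℕ}

lemma tay_X (c : k) : tay c X = PowerSeries.X + PowerSeries.C c := by
  simp [tay]

lemma tay_C (c a : k) : tay c (Polynomial.C a) = PowerSeries.C a := by
  simp [tay]

lemma tay_eq_coe (c : k) (q : k[X]) :
    tay c q = ((q.comp (X + Polynomial.C c) : k[X]) : PowerSeries k) := by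
  induction q using Polynomial.induction_on' with
  | add p q hp hq => simp [hp, hq, Polynomial.add_comp]
  | monomial m a =>
    rw [← Polynomial.C_mul_X_pow_eq_monomial]
    simp [tay_X, tay_C, Polynomial.mul_comp, Polynomial.pow_comp]

lemma tay_derivative (c : k) (q : k[X]) :
    PowerSeries.derivative k (tay c q) = tay c (derivative q) := by
  rw [tay_eq_coe, tay_eq_coe, PowerSeries.derivative_coe]
  congr 1
  rw [Polynomial.derivative_comp]
  simp

lemma tay_constantCoeff (c : k) (q : k[X]) :
    PowerSeries.constantCoeff (tay c q) = q.eval c := by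
  rw [tay_eq_coe, ← PowerSeries.coeff_zero_eq_constantCoeff_apply, Polynomial.coeff_coe,
    Polynomial.coeff_zero_eq_eval_zero, Polynomial.eval_comp]
  simp

lemma tay_coeff_one (c : k) (q : k[X]) :
    PowerSeries.coeff 1 (tay c q) = (derivative q).eval c := by
  rw [← tay_constantCoeff, ← tay_derivative, ← PowerSeries.coeff_zero_eq_constantCoeff_apply,
    PowerSeries.coeff_derivative]
  simp

/-- The skew symmetry of `M` with respect to `Q`. -/
lemma Mq_skew (Q : Matrix (Fin n) (Fin n) k) (κ v : Fin n → k) (hQ : Qᵀ = -Q) :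
    Mq Q κ v * Q.map Polynomial.C + Q.map Polynomial.C * (Mq Q κ v)ᵀ = 0 := by
  ext1 a b
  simp only [Matrix.add_apply, Matrix.mul_apply, Matrix.map_apply, Matrix.transpose_apply,
    Matrix.zero_apply, Mq, Matrix.of_apply]
  rw [← Finset.sum_add_distrib]
  refine Finset.sum_eq_zero fun j _ => ?_
  have h : Q j b = - Q b j := by
    have := congrFun (congrFun hQ b) j
    simpa [Matrix.transpose_apply] using this
  rw [h]
  simp only [Polynomial.C_mul, Polynomial.C_neg]
  ring

/-- The function `y_θ`. -/
noncomputable def yf (Q : Matrix (Fin n) (Fin n) k) (x : Fin n → PowerSeries k) (c : k)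
    (θ : Matrix (Fin n) (Fin n) k[X]) : PowerSeries k :=
  xi Q x ⬝ᵥ (θ.map (tay c) *ᵥ x)

lemma deriv_dot (u z : Fin n → PowerSeries k) :
    PowerSeries.derivative k (u ⬝ᵥ z) =
      (fun a => PowerSeries.derivative k (u a)) ⬝ᵥ z +
        u ⬝ᵥ fun a => PowerSeries.derivative k (z a) := by
  simp only [dotProduct, map_sum, Derivation.leibniz, smul_eq_mul]
  rw [← Finset.sum_add_distrib]
  refine Finset.sum_congr rfl fun a _ => ?_
  ring

lemma deriv_mulVec (A : Matrix (Fin n) (Fin n) (PowerSeries k)) (z : Fin n → PowerSeries k) :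
    (fun a => PowerSeries.derivative k ((A *ᵥ z) a)) =
      A.map (PowerSeries.derivative k) *ᵥ z +
        A *ᵥ fun a => PowerSeries.derivative k (z a) := by
  funext a
  have := deriv_dot (A a) z
  simpa [Matrix.mulVec, Pi.add_apply] using this

lemma map_wD (Q : Matrix (Fin n) (Fin n) k) (κ v : Fin n → k) (c : k)
    (θ : Matrix (Fin n) (Fin n) k[X]) :
    (wD Q κ v θ).map (tay c) = tay c (wv v) • (θ.map (tay c)).map (PowerSeries.derivative k) +
      (Mq Q κ v).map (tay c) * θ.map (tay c) - θ.map (tay c) * (Mq Q κ v).map (tay c) := by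
  ext1 a b
  simp only [wD, Matrix.map_apply, Matrix.sub_apply, Matrix.add_apply, Matrix.smul_apply,
    Matrix.mul_apply, map_sub, map_add, map_sum, map_mul, smul_eq_mul, tay_derivative]

lemma yf_wD (Q : Matrix (Fin n) (Fin n) k) (κ v : Fin n → k) (c : k) (hQ : Qᵀ = -Q)
    (hdet : Q.det ≠ 0) (x : Fin n → PowerSeries k) (hx : IsHor Q κ v c x)
    (θ : Matrix (Fin n) (Fin n) k[X]) :
    tay c (wv v) * PowerSeries.derivative k (yf Q x c θ) = yf Q x c (wD Q κ v θ) := by
  set W := tay c (wv v) with hW
  set MM := (Mq Q κ v).map (tay c) with hMM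
  set T := θ.map (tay c) with hT
  set Qi := (Q⁻¹).map (PowerSeries.C (R := k)) with hQi
  set QQ := Q.map (PowerSeries.C (R := k)) with hQQ
  have h1 : Qi * QQ = 1 := by
    rw [hQi, hQQ, ← Matrix.map_mul, Matrix.nonsing_inv_mul _ (isUnit_iff_ne_zero.mpr hdet)]
    exact Matrix.map_one _ (map_zero _) (map_one _)
  have h2 : QQ * Qi = 1 := by
    rw [hQi, hQQ, ← Matrix.map_mul, Matrix.mul_nonsing_inv _ (isUnit_iff_ne_zero.mpr hdet)]
    exact Matrix.map_one _ (map_zero _) (map_one _)
  have h3 : MM * QQ + QQ * MMᵀ = 0 := by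
    have h : (Mq Q κ v * Q.map Polynomial.C + Q.map Polynomial.C * (Mq Q κ v)ᵀ).map (tay c) =
        (0 : Matrix (Fin n) (Fin n) k[X]).map (tay c) := by rw [Mq_skew Q κ v hQ]
    rw [Matrix.map_add _ (map_add _), Matrix.map_mul, Matrix.map_mul,
      Matrix.map_zero _ (map_zero _)] at h
    have e : (Q.map Polynomial.C).map (tay c) = QQ := by
      ext1 a b
      simp [hQQ, tay_C]
    rw [e] at h
    exact h
  have h4 : Qi * MM = - (MMᵀ * Qi) := by
    have h := congrArg (fun A => Qi * A * Qi) h3
    simp only [mul_add, add_mul, mul_zero, zero_mul] at h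
    have e1 : Qi * (MM * QQ) * Qi = Qi * MM := by
      rw [← mul_assoc, mul_assoc (Qi * MM), h2, mul_one]
    have e2 : Qi * (QQ * MMᵀ) * Qi = MMᵀ * Qi := by
      rw [← mul_assoc Qi QQ, h1, one_mul]
    rw [e1, e2] at h
    exact eq_neg_of_add_eq_zero_left h
  -- the derivative of `x`
  have hx' : (fun a => W * PowerSeries.derivative k (x a)) = - (MM *ᵥ x) := by
    funext a
    have := hx a
    exact eq_neg_of_add_eq_zero_left this
  -- the derivative of `xi`
  have hxi : xi Q x = Qi *ᵥ x := rfl
  have hxi' : (fun a => W * PowerSeries.derivative k (xi Q x a)) = MMᵀ *ᵥ xi Q x := by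
    have e : (fun a => PowerSeries.derivative k (xi Q x a)) =
        Qi *ᵥ fun a => PowerSeries.derivative k (x a) := by
      rw [hxi, deriv_mulVec]
      have : Qi.map (PowerSeries.derivative k) = 0 := by
        ext1 a b
        simp [hQi]
      rw [this, Matrix.zero_mulVec, zero_add]
    have e2 : (fun a => W * PowerSeries.derivative k (xi Q x a)) =
        Qi *ᵥ fun a => W * PowerSeries.derivative k (x a) := by
      have : (fun a => W * PowerSeries.derivative k (xi Q x a)) =
          W • fun a => PowerSeries.derivative k (xi Q x a) := rfl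
      rw [this, e, ← Matrix.mulVec_smul]
      rfl
    rw [e2, hx', Matrix.mulVec_neg, Matrix.mulVec_mulVec, h4, hxi, Matrix.mulVec_mulVec,
      Matrix.neg_mulVec, neg_neg]
  -- the product rule
  have key : PowerSeries.derivative k (yf Q x c θ) =
      (fun a => PowerSeries.derivative k (xi Q x a)) ⬝ᵥ (T *ᵥ x) +
        (xi Q x ⬝ᵥ (T.map (PowerSeries.derivative k) *ᵥ x) +
          xi Q x ⬝ᵥ (T *ᵥ fun a => PowerSeries.derivative k (x a))) := by
    unfold yf
    rw [deriv_dot, deriv_mulVec, dotProduct_add]
  have key2 : W * PowerSeries.derivative k (yf Q x c θ) =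
      (fun a => W * PowerSeries.derivative k (xi Q x a)) ⬝ᵥ (T *ᵥ x) +
        (xi Q x ⬝ᵥ ((W • T.map (PowerSeries.derivative k)) *ᵥ x) +
          xi Q x ⬝ᵥ (T *ᵥ fun a => W * PowerSeries.derivative k (x a))) := by
    have a1 : (fun a => W * PowerSeries.derivative k (xi Q x a)) =
        W • fun a => PowerSeries.derivative k (xi Q x a) := rfl
    have a2 : (fun a => W * PowerSeries.derivative k (x a)) =
        W • fun a => PowerSeries.derivative k (x a) := rfl
    rw [key, a1, a2, Matrix.smul_mulVec, Matrix.mulVec_smul, smul_dotProduct, dotProduct_smul,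
      dotProduct_smul]
    simp only [smul_eq_mul]
    ring
  rw [key2, hxi', hx']
  unfold yf
  rw [map_wD, Matrix.sub_mulVec, Matrix.add_mulVec, dotProduct_sub, dotProduct_add,
    Matrix.mulVec_neg, dotProduct_neg, Matrix.mulVec_mulVec]
  have e3 : (MMᵀ *ᵥ xi Q x) ⬝ᵥ (T *ᵥ x) = xi Q x ⬝ᵥ ((MM * T) *ᵥ x) := by
    rw [← Matrix.mulVec_mulVec, Matrix.mulVec_transpose, Matrix.dotProduct_mulVec,
      Matrix.dotProduct_mulVec, Matrix.dotProduct_mulVec]
  rw [e3]
  ring

/-- The value of `wD θ` at a zero of `w`. -/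
lemma eval_wD (Q : Matrix (Fin n) (Fin n) k) (κ v : Fin n → k) (j : Fin n)
    (θ : Matrix (Fin n) (Fin n) k[X]) :
    (wD Q κ v θ).map (Polynomial.eval (v j)) =
      (Mq Q κ v).map (Polynomial.eval (v j)) * θ.map (Polynomial.eval (v j)) -
        θ.map (Polynomial.eval (v j)) * (Mq Q κ v).map (Polynomial.eval (v j)) := by
  have hw : (wv v).eval (v j) = 0 := by
    rw [wv, Polynomial.eval_prod]
    exact Finset.prod_eq_zero (Finset.mem_univ j) (by simp)
  ext1 a b
  simp only [wD, Matrix.map_apply, Matrix.sub_apply, Matrix.add_apply, Matrix.smul_apply,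
    Matrix.mul_apply, Polynomial.eval_sub, Polynomial.eval_add, Polynomial.eval_finsetSum,
    Polynomial.eval_mul, smul_eq_mul, hw, zero_mul, zero_add]

lemma Mq_sq [CharZero k] (Q : Matrix (Fin n) (Fin n) k) (κ v : Fin n → k) (hQ : Qᵀ = -Q)
    (j : Fin n) :
    (Mq Q κ v).map (Polynomial.eval (v j)) * (Mq Q κ v).map (Polynomial.eval (v j)) = 0 := by
  have hjj : Q j j = 0 := by
    have := congrFun (congrFun hQ j) j
    simp only [Matrix.transpose_apply, Matrix.neg_apply] at this
    exact self_eq_neg.mp this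
  have hne : ∀ b, b ≠ j → ∀ a, ((Mq Q κ v).map (Polynomial.eval (v j))) a b = 0 := by
    intro b hb a
    simp only [Mq, Matrix.map_apply, Matrix.of_apply, Polynomial.eval_mul, Polynomial.eval_prod]
    rw [Finset.prod_eq_zero (Finset.mem_erase.mpr ⟨hb.symm, Finset.mem_univ j⟩), mul_zero]
    simp
  have h0 : ((Mq Q κ v).map (Polynomial.eval (v j))) j j = 0 := by
    simp [Mq, hjj]
  ext1 a b
  rw [Matrix.mul_apply, Matrix.zero_apply]
  refine Finset.sum_eq_zero fun i _ => ?_
  by_cases hi : i = j
  · subst hi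
    by_cases hb : b = i
    · subst hb; rw [h0, mul_zero]
    · rw [hne b hb, mul_zero]
  · rw [hne i hi, zero_mul]

/-- The cube of `wD` is divisible by `X - v_j`. -/
lemma wD_cube [CharZero k] (Q : Matrix (Fin n) (Fin n) k) (κ v : Fin n → k) (hQ : Qᵀ = -Q)
    (j : Fin n) (θ : Matrix (Fin n) (Fin n) k[X]) :
    ∃ θ' : Matrix (Fin n) (Fin n) k[X],
      wD Q κ v (wD Q κ v (wD Q κ v θ)) = (X - Polynomial.C (v j)) • θ' := by
  have h0 : (wD Q κ v (wD Q κ v (wD Q κ v θ))).map (Polynomial.eval (v j)) = 0 := by
    rw [eval_wD, eval_wD, eval_wD]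
    set N := (Mq Q κ v).map (Polynomial.eval (v j)) with hN
    set A := θ.map (Polynomial.eval (v j)) with hA
    have hNN : N * N = 0 := Mq_sq Q κ v hQ j
    have e : N * (N * (N * A - A * N) - (N * A - A * N) * N) -
        (N * (N * A - A * N) - (N * A - A * N) * N) * N =
        (N * N) * (N * A) - 3 • (N * N) * (A * N) + 3 • (N * A) * (N * N) - A * N * (N * N) := by
      noncomm_ring
    rw [e, hNN]
    simp
  have hd : ∀ a b, (X - Polynomial.C (v j)) ∣ (wD Q κ v (wD Q κ v (wD Q κ v θ))) a b := by
    intro a b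
    rw [Polynomial.dvd_iff_isRoot]
    exact congrFun (congrFun h0 a) b
  choose θ' hθ' using hd
  exact ⟨Matrix.of θ', by ext1 a b; rw [hθ' a b]; rfl⟩

lemma yf_smul (Q : Matrix (Fin n) (Fin n) k) (x : Fin n → PowerSeries k) (c : k) (q : k[X])
    (θ : Matrix (Fin n) (Fin n) k[X]) : yf Q x c (q • θ) = tay c q * yf Q x c θ := by
  unfold yf
  have : (q • θ).map (tay c) = tay c q • θ.map (tay c) := by
    ext1 a b
    simp [Matrix.smul_apply]
  rw [this, Matrix.smul_mulVec, dotProduct_smul, smul_eq_mul]

end

theorem van : L_Van := by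
  intro k _ _ n Q κ v hOk j x hx hx0 Θ hΘ hsat hval
  obtain ⟨hQ, hdet, -, -, hv⟩ := hOk
  suffices H : ∀ m : ℕ, ∀ θ ∈ Θ, PowerSeries.coeff m (yf Q x (v j) θ) = 0 by
    intro θ hθ
    have : yf Q x (v j) θ = 0 := by
      ext m
      rw [H m θ hθ, map_zero]
    exact this
  intro m
  induction m using Nat.strong_induction_on with
  | _ m ih =>
    intro θ hθ
    rcases Nat.eq_zero_or_pos m with rfl | hm
    · -- the value at `0`
      have h := hval θ hθ
      rw [PowerSeries.coeff_zero_eq_constantCoeff_apply]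
      have e1 : ∀ a, PowerSeries.constantCoeff (xi Q x a) = if a = j then 1 else 0 := by
        intro a
        have : PowerSeries.constantCoeff (xi Q x a) = ∑ b, Q⁻¹ a b * Q b j := by
          simp only [xi, Matrix.mulVec, dotProduct, map_sum, map_mul, Matrix.map_apply,
            PowerSeries.constantCoeff_C, hx0]
        rw [this, ← Matrix.mul_apply, Matrix.nonsing_inv_mul _ (isUnit_iff_ne_zero.mpr hdet),
          Matrix.one_apply]
      simp only [yf, dotProduct, Matrix.mulVec, map_sum, map_mul, e1, ite_mul, one_mul, zero_mul,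
        Finset.sum_ite_eq', Finset.mem_univ, if_true, Matrix.map_apply, tay_constantCoeff, hx0]
      simpa [Matrix.mul_apply] using h
    · -- the order argument
      set W := tay (v j) (wv v) with hW
      have hW0 : PowerSeries.coeff 0 W = 0 := by
        rw [PowerSeries.coeff_zero_eq_constantCoeff_apply, tay_constantCoeff, wv,
          Polynomial.eval_prod]
        exact Finset.prod_eq_zero (Finset.mem_univ j) (by simp)
      set μ := PowerSeries.coeff 1 W with hμ
      have hμ0 : μ ≠ 0 := by
        rw [hμ, tay_coeff_one, wv, Polynomial.derivative_prod_finset, Polynomial.eval_finsetSum]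
        rw [Finset.sum_eq_single j]
        · simp only [Polynomial.derivative_sub, Polynomial.derivative_X, Polynomial.derivative_C,
            sub_zero, mul_one, Polynomial.eval_prod, Polynomial.eval_sub, Polynomial.eval_X,
            Polynomial.eval_C]
          exact Finset.prod_ne_zero_iff.mpr fun i hi => sub_ne_zero.mpr fun h =>
            (Finset.mem_erase.mp hi).1 (hv h).symm
        · intro b _ hb
          rw [Polynomial.eval_mul, Polynomial.eval_prod,
            Finset.prod_eq_zero (Finset.mem_erase.mpr ⟨hb.symm, Finset.mem_univ j⟩) (by simp),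
            zero_mul]
        · intro h
          exact absurd (Finset.mem_univ j) h
      -- the coefficient of `s ^ m` of `W y'`
      have step : ∀ η ∈ Θ, PowerSeries.coeff m (yf Q x (v j) (wD Q κ v η)) =
          μ * (m * PowerSeries.coeff m (yf Q x (v j) η)) := by
        intro η hη
        rw [← yf_wD Q κ v (v j) hQ hdet x hx η, ← hW, PowerSeries.coeff_mul]
        obtain ⟨l, rfl⟩ : ∃ l, m = l + 1 := ⟨m - 1, by omega⟩
        rw [Finset.sum_eq_single (1, l)]
        · rw [PowerSeries.coeff_derivative, ← hμ]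
          push_cast
          ring
        · rintro ⟨a, b⟩ hab hne
          rw [Finset.HasAntidiagonal.mem_antidiagonal] at hab
          simp only at hab ⊢
          rcases Nat.eq_zero_or_pos a with rfl | ha
          · rw [hW0, zero_mul]
          · have hb : b < l := by
              rcases Nat.lt_or_ge b l with h | h
              · exact h
              · exfalso; apply hne
                have : a = 1 := by omega
                have : b = l := by omega
                subst_vars; rfl
            rw [PowerSeries.coeff_derivative, ih (b + 1) (by omega) η hη, zero_mul, mul_zero]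
        · intro h
          refine absurd (Finset.HasAntidiagonal.mem_antidiagonal.mpr ?_) h
          show 1 + l = l + 1
          omega
      obtain ⟨θ', hθ'⟩ := wD_cube Q κ v hQ j θ
      have h1 := hΘ θ hθ
      have h2 := hΘ _ h1
      have h3 := hΘ _ h2
      have hθ'mem : θ' ∈ Θ := hsat θ' (hθ' ▸ h3)
      have hz : PowerSeries.coeff m (yf Q x (v j) (wD Q κ v (wD Q κ v (wD Q κ v θ)))) = 0 := by
        rw [hθ', yf_smul]
        have : tay (v j) (X - Polynomial.C (v j)) = PowerSeries.X := by
          rw [map_sub, tay_X, tay_C]; ring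
        rw [this]
        obtain ⟨l, rfl⟩ : ∃ l, m = l + 1 := ⟨m - 1, by omega⟩
        rw [PowerSeries.coeff_succ_X_mul]
        exact ih l (by omega) θ' hθ'mem
      rw [step _ h2, step _ h1, step _ hθ] at hz
      have hm0 : (m : k) ≠ 0 := Nat.cast_ne_zero.mpr (by omega)
      simpa [hμ0, hm0] using hz

end Pool.Agent.Helper38.BL
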